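import Mathlib

set_option autoImplicit false
set_option linter.unusedVariables false
set_option linter.unusedSimpArgs false

open Polynomial

namespace Pool.Agent.Results.MP_7b40b5_an.ReciprocalFails

/-- Finite words over the alphabet `Fin k`. -/
abbrev Word (k : ℕ) := List (Fin k)

/-- The extension of a substitution `σ` to words by concatenation. -/
def app {k : ℕ} (σ : Fin k → Word k) (w : Word k) : Word k := w.flatMap σ

/-- The reversal `σ̂` of a substitution. -/
def rev {k : ℕ} (σ : Fin k → Word k) : Fin k → Word k := fun i => (σ i).reverse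

/-- The incidence matrix: the entry `(i, j)` is the number of occurrences of `i` in `σ j`. -/
def incidence {k : ℕ} (σ : Fin k → Word k) : Matrix (Fin k) (Fin k) ℤ :=
  Matrix.of fun i j => ((σ j).count i : ℤ)

/-- `p(x) = det (x I - M_σ)`. -/
noncomputable def p {k : ℕ} (σ : Fin k → Word k) : ℤ[X] := (incidence σ).charpoly

/-- `q(x) = x ^ k p(1/x)`, the reciprocal of `p` (note that `p` is monic of degree `k`). -/
noncomputable def q {k : ℕ} (σ : Fin k → Word k) : ℤ[X] := (p σ).reflect k

/-- Pisot numbers: real algebraic integers `> 1` all of whose other conjugates have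
modulus `< 1`. -/
def IsPisotNumber (lam : ℝ) : Prop :=
  1 < lam ∧ IsIntegral ℤ lam ∧
    ∀ z : ℂ, aeval z (minpoly ℚ lam) = 0 → z ≠ (lam : ℂ) → ‖z‖ < 1

/-- `σ` is irreducible Pisot: the Perron-Frobenius eigenvalue (the eigenvalue of `M_σ` which is a
real number bounding the modulus of all the eigenvalues) is a Pisot number, and `p` is irreducible
over `ℚ`. -/
structure IsIrredPisot {k : ℕ} (σ : Fin k → Word k) : Prop where
  pisot : ∃ lam : ℝ, IsPisotNumber lam ∧ aeval lam (p σ) = 0 ∧
    ∀ z : ℂ, aeval z (p σ) = 0 → ‖z‖ ≤ lam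
  irred : Irreducible ((p σ).map (Int.castRingHom ℚ))

/-- `σ` is unimodular. -/
def IsUnimodular {k : ℕ} (σ : Fin k → Word k) : Prop := |(incidence σ).det| = 1

/-- The prefix of length `n` of an infinite word. -/
def pre {k : ℕ} (u : ℕ → Fin k) (n : ℕ) : Word k := (List.range n).map u

/-- `u` is a one-sided fixed point of `σ`: the words `σ(u_0 ⋯ u_{n-1})` are prefixes of `u` and
their lengths are unbounded. -/
def IsFixedPoint {k : ℕ} (σ : Fin k → Word k) (u : ℕ → Fin k) : Prop :=
  (∀ n, app σ (pre u n) = pre u (app σ (pre u n)).length) ∧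
    ∀ N, ∃ n, N ≤ (app σ (pre u n)).length

/-- The vector `𝐥(U)` of letter counts. -/
def ell {k : ℕ} (U : Word k) : Fin k → ℕ := fun i => U.count i

/-- Balanced pairs of words. -/
def Balanced {k : ℕ} (P : Word k × Word k) : Prop := ell P.1 = ell P.2

/-- Minimal balanced pairs (of nonempty words). -/
def MinimalPair {k : ℕ} (P : Word k × Word k) : Prop :=
  P.1 ≠ [] ∧ Balanced P ∧ ∀ m < P.1.length, 1 ≤ m → ell (P.1.take m) ≠ ell (P.2.take m)

/-- `L` is a splitting of the pair `P` into minimal balanced pairs. -/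
def IsSplitting {k : ℕ} (P : Word k × Word k) (L : List (Word k × Word k)) : Prop :=
  (∀ Q ∈ L, MinimalPair Q) ∧ (L.map Prod.fst).flatten = P.1 ∧ (L.map Prod.snd).flatten = P.2

/-- The pair `(σ(U), σ̂(V))`. -/
def image {k : ℕ} (σ : Fin k → Word k) (P : Word k × Word k) : Word k × Word k :=
  (app σ P.1, app (rev σ) P.2)

/-- `P` is the pair of prefixes of `u`, `v` of the least common length `n ≥ 1` that is
balanced. -/
def IsInitial {k : ℕ} (u v : ℕ → Fin k) (P : Word k × Word k) : Prop :=
  ∃ n, 1 ≤ n ∧ P = (pre u n, pre v n) ∧ Balanced P ∧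
    ∀ m < n, 1 ≤ m → ¬ Balanced (pre u m, pre v m)

/-- `Q` is one of the minimal balanced pairs in the splitting of `(σ(U), σ̂(V))`,
`P = (U, V)`. -/
def Step {k : ℕ} (σ : Fin k → Word k) (P Q : Word k × Word k) : Prop :=
  ∃ L, IsSplitting (image σ P) L ∧ Q ∈ L

/-- The set `ℬ` of the minimal balanced pairs reachable from `P₀`. -/
def reach {k : ℕ} (σ : Fin k → Word k) (P0 : Word k × Word k) : Set (Word k × Word k) :=
  {P | Relation.ReflTransGen (Step σ) P0 P}

/-- The incidence matrix `M_Σ` of a substitution `Σ` on the alphabet `ℬ`. -/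
def bigIncidence {ι : Type} [DecidableEq ι] (Sig : ι → List ι) : Matrix ι ι ℤ :=
  Matrix.of fun Q P => ((Sig P).count Q : ℤ)

/-- The assertion of Q1: for every unimodular irreducible Pisot substitution `σ` for which the
balanced pair algorithm for `σ`, `σ̂` is defined (fixed points `u`, `v`, initial pair `P₀`) and
`ℬ` is finite, with `Σ` the substitution on `ℬ` given by the splittings: if `p ≠ q`, then `p` and
`q` both divide `det (x I - M_Σ)`. -/
def Q1 : Prop :=
  ∀ (k : ℕ) (σ : Fin k → Word k), IsUnimodular σ → IsIrredPisot σ →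
    ∀ u v : ℕ → Fin k, IsFixedPoint σ u → IsFixedPoint (rev σ) v →
      ∀ P0 : Word k × Word k, IsInitial u v P0 →
        ∀ _ : Fintype (reach σ P0), ∀ Sig : reach σ P0 → List (reach σ P0),
          (∀ P : reach σ P0, IsSplitting (image σ P.1) ((Sig P).map Subtype.val)) →
            p σ ≠ q σ →
              p σ ∣ (bigIncidence Sig).charpoly ∧ q σ ∣ (bigIncidence Sig).charpoly

/-! ### Generalities -/

theorem app_append {k : ℕ} (σ : Fin k → Word k) (x y : Word k) :
    app σ (x ++ y) = app σ x ++ app σ y := by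
  simp [app]

theorem app_prefix {k : ℕ} (σ : Fin k → Word k) {x y : Word k} (h : x <+: y) :
    app σ x <+: app σ y := by
  obtain ⟨t, rfl⟩ := h
  rw [app_append]
  exact List.prefix_append _ _

theorem le_length_app {k : ℕ} (σ : Fin k → Word k) (hσ : ∀ i, σ i ≠ []) (w : Word k) :
    w.length ≤ (app σ w).length := by
  induction w with
  | nil => simp
  | cons a w ih =>
    have h1 : 1 ≤ (σ a).length := List.length_pos_iff.2 (hσ a)
    simp only [app, List.flatMap_cons, List.length_append, List.length_cons] at ih ⊢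
    omega

theorem length_pre {k : ℕ} (u : ℕ → Fin k) (n : ℕ) : (pre u n).length = n := by
  simp [pre]

/-- Existence of fixed points. -/
theorem exists_fixed {k : ℕ} (σ : Fin k → Word k) (hσ : ∀ i, σ i ≠ []) (c : Fin k) (t : Word k)
    (ht : t ≠ []) (hc : σ c = c :: t) :
    ∃ u : ℕ → Fin k, IsFixedPoint σ u ∧ pre u (σ c).length = σ c := by
  set W : ℕ → Word k := fun n => (app σ)^[n] [c] with hW
  set R : ℕ → Word k := fun n => (app σ)^[n] t with hR
  have W0 : W 0 = [c] := rfl
  have Ws : ∀ n, W (n + 1) = app σ (W n) := fun n => Function.iterate_succ_apply' _ _ _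
  have Rs : ∀ n, R (n + 1) = app σ (R n) := fun n => Function.iterate_succ_apply' _ _ _
  have R0 : R 0 = t := rfl
  have W1 : W 1 = σ c := by rw [Ws, W0]; simp [app]
  have hRne : ∀ n, R n ≠ [] := by
    intro n
    induction n with
    | zero => exact ht
    | succ n ih =>
      have h1 := le_length_app σ hσ (R n)
      have h2 : 0 < (R n).length := List.length_pos_iff.2 ih
      rw [Rs]
      exact List.length_pos_iff.1 (by omega)
  have hWR : ∀ n, W (n + 1) = W n ++ R n := by
    intro n
    induction n with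
    | zero => rw [W1, hc, W0, R0]; rfl
    | succ n ih => rw [Ws (n + 1), Ws n, Rs, ← app_append, ← ih, Ws n]
  have hlen : ∀ n, n + 1 ≤ (W n).length := by
    intro n
    induction n with
    | zero => simp [W0]
    | succ n ih =>
      have h2 : 0 < (R n).length := List.length_pos_iff.2 (hRne n)
      rw [hWR, List.length_append]
      omega
  have hpre : ∀ m d, W m <+: W (m + d) := by
    intro m d
    induction d with
    | zero => exact List.prefix_rfl
    | succ d ih =>
      refine ih.trans ?_
      rw [← Nat.add_assoc, hWR]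
      exact List.prefix_append _ _
  have hpre' : ∀ m n, m ≤ n → W m <+: W n := by
    intro m n h
    obtain ⟨d, rfl⟩ := Nat.exists_eq_add_of_le h
    exact hpre m d
  set u : ℕ → Fin k := fun i => (W i).getD i c with hu
  have key : ∀ i m (h : i < (W m).length), u i = (W m)[i] := by
    intro i m h
    have hi : i < (W i).length := hlen i
    have h1 : u i = (W i)[i] := by
      simp only [hu]
      rw [List.getD_eq_getElem _ _ hi]
    rw [h1]
    rcases le_total i m with him | him
    · exact (hpre' i m him).getElem hi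
    · exact ((hpre' m i him).getElem h).symm
  have hp : ∀ m n, n ≤ (W m).length → pre u n = (W m).take n := by
    intro m n h
    apply List.ext_getElem
    · simp [pre, h]
    · intro i h1 h2
      have h3 : i < n := by simpa [pre] using h1
      simp only [pre, List.getElem_map, List.getElem_range, List.getElem_take]
      exact key i m (by omega)
  refine ⟨u, ⟨?_, ?_⟩, ?_⟩
  · intro n
    have h1 : pre u n = (W n).take n := hp n n (by have := hlen n; omega)
    have h2 : app σ (pre u n) <+: W (n + 1) := by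
      rw [h1, Ws]
      exact app_prefix σ (List.take_prefix _ _)
    rw [hp (n + 1) _ h2.length_le]
    exact List.prefix_iff_eq_take.1 h2
  · intro N
    refine ⟨N, ?_⟩
    have := le_length_app σ hσ (pre u N)
    rwa [length_pre] at this
  · rw [← W1, hp 1 _ le_rfl, List.take_length]

theorem length_eq_of_balanced {k : ℕ} {P : Word k × Word k} (h : Balanced P) :
    P.1.length = P.2.length :=
  (List.perm_iff_count.2 fun a => congrFun h a).length_eq

/-- The splitting into minimal balanced pairs is unique. -/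
theorem splitting_unique {k : ℕ} : ∀ (L L' : List (Word k × Word k)) (P : Word k × Word k),
    IsSplitting P L → IsSplitting P L' → L = L' := by
  have aux : ∀ (A A' : Word k × Word k) (U V : Word k) (X Y X' Y' : Word k),
      MinimalPair A → MinimalPair A' → A.1 ++ X = A'.1 ++ X' → A.2 ++ Y = A'.2 ++ Y' →
        ¬ A.1.length < A'.1.length := by
    intro A A' U V X Y X' Y' hA hA' h1 h2 hlt
    obtain ⟨hA1, hA2, hA3⟩ := hA
    obtain ⟨hA1', hA2', hA3'⟩ := hA'
    have hl := length_eq_of_balanced hA2
    have hl' := length_eq_of_balanced hA2'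
    apply hA3' A.1.length hlt (List.length_pos_iff.2 hA1)
    have e1 : A'.1.take A.1.length = A.1 := by
      have := congrArg (List.take A.1.length) h1
      rw [List.take_left, List.take_append_of_le_length hlt.le] at this
      exact this.symm
    have e2 : A'.2.take A.1.length = A.2 := by
      have := congrArg (List.take A.1.length) h2
      rw [hl, List.take_left, List.take_append_of_le_length (by omega), ← hl] at this
      exact this.symm
    rw [e1, e2]
    exact hA2
  intro L
  induction L with
  | nil =>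
    intro L' P h h'
    cases L' with
    | nil => rfl
    | cons A' L' =>
      exfalso
      have h1 := h.2.1
      have h2 := h'.2.1
      rw [← h1] at h2
      simp only [List.map_nil, List.flatten_nil, List.map_cons, List.flatten_cons,
        List.append_eq_nil_iff] at h2
      exact (h'.1 A' (by simp)).1 h2.1
  | cons A L ih =>
    intro L' P h h'
    cases L' with
    | nil =>
      exfalso
      have h1 := h.2.1
      have h2 := h'.2.1
      rw [← h2] at h1
      simp only [List.map_nil, List.flatten_nil, List.map_cons, List.flatten_cons,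
        List.append_eq_nil_iff] at h1
      exact (h.1 A (by simp)).1 h1.1
    | cons A' L' =>
      have hA := h.1 A (by simp)
      have hA' := h'.1 A' (by simp)
      have h1 : A.1 ++ (L.map Prod.fst).flatten = A'.1 ++ (L'.map Prod.fst).flatten := by
        have h1 := h.2.1
        have h2 := h'.2.1
        rw [← h2] at h1
        simpa using h1
      have h2 : A.2 ++ (L.map Prod.snd).flatten = A'.2 ++ (L'.map Prod.snd).flatten := by
        have h1 := h.2.2
        have h2 := h'.2.2
        rw [← h2] at h1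
        simpa using h1
      have n1 := aux A A' [] [] _ _ _ _ hA hA' h1 h2
      have n2 := aux A' A [] [] _ _ _ _ hA' hA h1.symm h2.symm
      have hlen : A.1.length = A'.1.length := by omega
      have hlen2 : A.2.length = A'.2.length := by
        rw [← length_eq_of_balanced hA.2.1, ← length_eq_of_balanced hA'.2.1, hlen]
      obtain ⟨e1, e1'⟩ := List.append_inj h1 hlen
      obtain ⟨e2, e2'⟩ := List.append_inj h2 hlen2
      have eA : A = A' := Prod.ext e1 e2
      have eL : L = L' := by
        refine ih L' ((L.map Prod.fst).flatten, (L.map Prod.snd).flatten) ⟨?_, rfl, rfl⟩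
          ⟨?_, e1'.symm, e2'.symm⟩
        · intro Q hQ; exact h.1 Q (by simp [hQ])
        · intro Q hQ; exact h'.1 Q (by simp [hQ])
      rw [eA, eL]

/-! ### The example -/

/-- The substitution `0 ↦ 1, 1 ↦ 12, 2 ↦ 012`. -/
def s : Fin 3 → Word 3 := ![[1], [1, 2], [0, 1, 2]]

instance {k : ℕ} (P : Word k × Word k) : Decidable (Balanced P) := by
  unfold Balanced; infer_instance

instance {k : ℕ} (P : Word k × Word k) : Decidable (MinimalPair P) := by
  unfold MinimalPair; infer_instance

instance {k : ℕ} (P : Word k × Word k) (L : List (Word k × Word k)) :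
    Decidable (IsSplitting P L) := by
  unfold IsSplitting; infer_instance

/-- The three minimal balanced pairs `(12, 21)`, `(0, 0)`, `(1, 1)`. -/
def P3 : Fin 3 → Word 3 × Word 3 := ![([1, 2], [2, 1]), ([0], [0]), ([1], [1])]

/-- The substitution `Σ` on the indices of the pairs. -/
def S3 : Fin 3 → List (Fin 3) := ![[0, 1, 0], [2], [0]]

theorem split3 : ∀ i, IsSplitting (image s (P3 i)) ((S3 i).map P3) := by
  decide

theorem P3_inj : Function.Injective P3 := by
  decide

theorem reach_eq : reach s (P3 0) = Set.range P3 := by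
  ext P
  constructor
  · intro h
    induction h with
    | refl => exact ⟨0, rfl⟩
    | tail _ hst ih =>
      obtain ⟨i, rfl⟩ := ih
      obtain ⟨L, hL, hQ⟩ := hst
      rw [splitting_unique _ _ _ hL (split3 i)] at hQ
      obtain ⟨j, -, hj⟩ := List.mem_map.1 hQ
      exact ⟨j, hj⟩
  · rintro ⟨i, rfl⟩
    have h0 : Relation.ReflTransGen (Step s) (P3 0) (P3 0) := Relation.ReflTransGen.refl
    have h1 : Relation.ReflTransGen (Step s) (P3 0) (P3 1) :=
      h0.tail ⟨_, split3 0, by simp [S3]⟩
    have h2 : Relation.ReflTransGen (Step s) (P3 0) (P3 2) :=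
      h1.tail ⟨_, split3 1, by simp [S3]⟩
    fin_cases i
    · exact h0
    · exact h1
    · exact h2

theorem p_eq : p s = X ^ 3 - 2 * X ^ 2 - 1 := by
  have h : incidence s = !![0, 0, 1; 1, 1, 1; 0, 1, 1] := by
    ext i j
    fin_cases i <;> fin_cases j <;> decide
  rw [p, h, Matrix.charpoly, Matrix.det_fin_three]
  simp [Matrix.charmatrix_apply]
  ring

theorem big_eq : (bigIncidence S3).charpoly = X ^ 3 - 2 * X ^ 2 - 1 := by
  have h : bigIncidence S3 = !![2, 0, 1; 1, 0, 0; 0, 1, 0] := by
    ext i j
    fin_cases i <;> fin_cases j <;> decide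
  rw [h, Matrix.charpoly, Matrix.det_fin_three]
  simp [Matrix.charmatrix_apply]
  ring

theorem q_eq : q s = 1 - 2 * X - X ^ 3 := by
  rw [q, p_eq]
  ext n
  rw [coeff_reflect]
  rcases Nat.lt_or_ge 3 n with h | h
  · rw [revAt_eq_self_of_lt h]
    have : (X ^ 3 - 2 * X ^ 2 - 1 : ℤ[X]) = X ^ 3 - C 2 * X ^ 2 - C 1 := by simp
    rw [this]
    have : (1 - 2 * X - X ^ 3 : ℤ[X]) = C 1 - C 2 * X - X ^ 3 := by simp
    rw [this]
    simp only [coeff_sub, coeff_X_pow, coeff_C_mul, coeff_C, coeff_X]
    have h1 : n ≠ 3 := by omega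
    have h2 : n ≠ 2 := by omega
    have h3 : n ≠ 0 := by omega
    have h4 : 1 ≠ n := by omega
    simp [h1, h2, h3, h4]
  · rw [revAt_le h]
    have : (X ^ 3 - 2 * X ^ 2 - 1 : ℤ[X]) = X ^ 3 - C 2 * X ^ 2 - C 1 := by simp
    rw [this]
    have : (1 - 2 * X - X ^ 3 : ℤ[X]) = C 1 - C 2 * X - X ^ 3 := by simp
    rw [this]
    simp only [coeff_sub, coeff_X_pow, coeff_C_mul, coeff_C, coeff_X]
    interval_cases n <;> simp

theorem q_not_dvd : ¬ q s ∣ (X ^ 3 - 2 * X ^ 2 - 1 : ℤ[X]) := by
  rintro ⟨r, hr⟩
  have h := congrArg (eval 2) hr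
  rw [q_eq] at h
  simp only [eval_sub, eval_mul, eval_pow, eval_X, eval_one, eval_ofNat] at h
  have : (-1 : ℤ) = -11 * eval 2 r := by linarith
  omega

theorem unimod : IsUnimodular s := by
  unfold IsUnimodular
  decide +kernel

theorem irred_p : Irreducible ((p s).map (Int.castRingHom ℚ)) := by
  have hp : (p s).map (Int.castRingHom ℚ) = X ^ 3 - 2 * X ^ 2 - 1 := by
    rw [p_eq]; simp
  have hmonic : ((p s).map (Int.castRingHom ℚ)).Monic := (Matrix.charpoly_monic _).map _
  have hdeg : ((p s).map (Int.castRingHom ℚ)).natDegree = 3 := by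
    change ((incidence s).charpoly.map (Int.castRingHom ℚ)).natDegree = 3
    rw [(Matrix.charpoly_monic (incidence s)).natDegree_map, Matrix.charpoly_natDegree_eq_dim]
    simp
  rw [Polynomial.irreducible_iff_roots_eq_zero_of_degree_le_three (by omega) (by omega)]
  rw [Multiset.eq_zero_iff_forall_notMem]
  intro r hr
  rw [mem_roots hmonic.ne_zero, IsRoot.def, hp] at hr
  simp only [eval_sub, eval_mul, eval_pow, eval_X, eval_one, eval_ofNat] at hr
  have hint : IsLocalization.IsInteger ℤ r := by
    apply isInteger_of_is_root_of_monic (Matrix.charpoly_monic (incidence s))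
    change aeval r (p s) = 0
    rw [p_eq]
    simpa only [map_sub, map_mul, map_pow, aeval_X, map_one, map_ofNat] using hr
  obtain ⟨n, hn⟩ := hint
  have hn' : (n : ℚ) = r := hn
  rw [← hn'] at hr
  have h : n ^ 2 * (n - 2) = 1 := by
    have : ((n ^ 2 * (n - 2) : ℤ) : ℚ) = 1 := by
      push_cast
      linarith
    exact_mod_cast this
  have h1 : n ^ 2 ∣ 1 := ⟨_, h.symm⟩
  have h2 : n ∣ 1 := dvd_trans (dvd_pow_self n (by norm_num)) h1
  rcases Int.isUnit_iff.1 (isUnit_of_dvd_one h2) with h3 | h3 <;> rw [h3] at h <;> norm_num at h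

theorem exists_root : ∃ lam : ℝ, 2 < lam ∧ lam < 5 / 2 ∧ lam ^ 3 - 2 * lam ^ 2 - 1 = 0 := by
  have hc : ContinuousOn (fun x : ℝ => x ^ 3 - 2 * x ^ 2 - 1) (Set.Icc 2 (5 / 2)) := by
    fun_prop
  have h := intermediate_value_Ioo (by norm_num : (2 : ℝ) ≤ 5 / 2) hc
  obtain ⟨x, hx, hx0⟩ := h (show (0 : ℝ) ∈ Set.Ioo _ _ by constructor <;> norm_num)
  exact ⟨x, hx.1, hx.2, hx0⟩

theorem other_roots {lam : ℝ} (h2 : 2 < lam) (h3 : lam < 5 / 2)
    (h : lam ^ 3 - 2 * lam ^ 2 - 1 = 0) (z : ℂ) (hz : z ^ 3 - 2 * z ^ 2 - 1 = 0)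
    (hne : z ≠ (lam : ℂ)) : ‖z‖ < 1 := by
  have hfac : (z - lam) * (z ^ 2 + (lam - 2) * z + (lam ^ 2 - 2 * lam)) = 0 := by
    have hC : (lam : ℂ) ^ 3 - 2 * (lam : ℂ) ^ 2 - 1 = 0 := by exact_mod_cast congrArg Complex.ofReal h
    linear_combination hz - hC
  have hq : z ^ 2 + (lam - 2) * z + (lam ^ 2 - 2 * lam) = 0 := by
    rcases mul_eq_zero.1 hfac with h | h
    · exact absurd (sub_eq_zero.1 h) hne
    · exact h
  have hre : z.re ^ 2 - z.im ^ 2 + (lam - 2) * z.re + (lam ^ 2 - 2 * lam) = 0 := by
    have := congrArg Complex.re hq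
    simp [pow_two] at this
    nlinarith [this]
  have him : z.im * (2 * z.re + (lam - 2)) = 0 := by
    have := congrArg Complex.im hq
    simp [pow_two] at this
    nlinarith [this]
  have hc1 : lam ^ 2 * (lam - 2) = 1 := by nlinarith
  have hc2 : lam ^ 2 - 2 * lam < 1 := by nlinarith
  have hc3 : (lam - 2) ^ 2 < lam ^ 2 - 2 * lam := by nlinarith
  have hnorm : ‖z‖ ^ 2 = z.re ^ 2 + z.im ^ 2 := by
    rw [← Complex.normSq_eq_norm_sq, Complex.normSq_apply]; ring
  rcases mul_eq_zero.1 him with h0 | h0
  · exfalso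
    rw [h0] at hre
    nlinarith [sq_nonneg (2 * z.re + (lam - 2))]
  · have hx : z.re = -(lam - 2) / 2 := by linarith
    have : z.re ^ 2 + z.im ^ 2 < 1 := by
      rw [hx] at hre ⊢
      nlinarith
    rw [← hnorm] at this
    nlinarith [norm_nonneg z]

theorem irredPisot : IsIrredPisot s := by
  refine ⟨?_, irred_p⟩
  obtain ⟨lam, h2, h3, h⟩ := exists_root
  have hroot : aeval lam (p s) = 0 := by
    rw [p_eq]
    simpa only [map_sub, map_mul, map_pow, aeval_X, map_one, map_ofNat] using h
  have hpz : ∀ z : ℂ, aeval z (p s) = 0 → z ^ 3 - 2 * z ^ 2 - 1 = 0 := by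
    intro z hz
    rw [p_eq] at hz
    simpa only [map_sub, map_mul, map_pow, aeval_X, map_one, map_ofNat] using hz
  refine ⟨lam, ⟨by linarith, ⟨p s, Matrix.charpoly_monic _, hroot⟩, ?_⟩, hroot, ?_⟩
  · intro z hz hne
    apply other_roots h2 h3 h z _ hne
    apply hpz
    have hdvd : minpoly ℚ lam ∣ (p s).map (algebraMap ℤ ℚ) := by
      apply minpoly.dvd
      rw [aeval_map_algebraMap]
      exact hroot
    obtain ⟨r, hr⟩ := hdvd
    rw [← aeval_map_algebraMap ℚ, hr, map_mul, hz, zero_mul]
  · intro z hz
    by_cases hne : z = (lam : ℂ)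
    · rw [hne, Complex.norm_real, Real.norm_eq_abs, abs_of_pos (by linarith)]
    · have := other_roots h2 h3 h z (hpz z hz) hne
      linarith

/-- **Full disproof of Q1.** -/
theorem result : ¬ Q1 := by
  intro hQ
  obtain ⟨u, hu, hu2⟩ := exists_fixed s (by decide) 1 [2] (by decide) rfl
  obtain ⟨v, hv, hv2⟩ := exists_fixed (rev s) (by decide) 2 [1, 0] (by decide) rfl
  have hu3 : pre u 2 = [1, 2] := hu2
  have hv3 : pre v 3 = [2, 1, 0] := hv2
  have hpre_take : ∀ (w : ℕ → Fin 3) (m n : ℕ), m ≤ n → pre w m = (pre w n).take m := by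
    intro w m n h
    rw [pre, pre, ← List.map_take, List.take_range, min_eq_left h]
  have hv4 : pre v 2 = [2, 1] := by rw [hpre_take v 2 3 (by norm_num), hv3]; rfl
  have hu1 : pre u 1 = [1] := by rw [hpre_take u 1 2 (by norm_num), hu3]; rfl
  have hv1 : pre v 1 = [2] := by rw [hpre_take v 1 2 (by norm_num), hv4]; rfl
  have hinit : IsInitial u v (P3 0) := by
    refine ⟨2, by norm_num, ?_, ?_, ?_⟩
    · rw [hu3, hv4]; rfl
    · decide
    · intro m hm hm1
      have : m = 1 := by omega
      subst this
      rw [hu1, hv1]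
      decide
  -- the alphabet
  have hmem : ∀ i, P3 i ∈ reach s (P3 0) := fun i => by rw [reach_eq]; exact ⟨i, rfl⟩
  let e : Fin 3 ≃ reach s (P3 0) :=
    Equiv.ofBijective (fun i => (⟨P3 i, hmem i⟩ : reach s (P3 0)))
      ⟨fun i j h => P3_inj (congrArg Subtype.val h), fun P => by
        obtain ⟨i, hi⟩ : P.1 ∈ Set.range P3 := (Set.ext_iff.1 reach_eq _).1 P.2
        exact ⟨i, Subtype.ext hi⟩⟩
  have he : ∀ i, (e i).1 = P3 i := fun i => rfl
  let ft : Fintype (reach s (P3 0)) := Fintype.ofEquiv _ e
  let Sig : reach s (P3 0) → List (reach s (P3 0)) := fun P => (S3 (e.symm P)).map e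
  have hSig : ∀ P : reach s (P3 0), IsSplitting (image s P.1) ((Sig P).map Subtype.val) := by
    intro P
    obtain ⟨i, rfl⟩ := e.surjective P
    have h1 : (Sig (e i)).map Subtype.val = (S3 i).map P3 := by
      simp only [Sig, Equiv.symm_apply_apply, List.map_map]
      rfl
    rw [h1, he]
    exact split3 i
  have hpq : p s ≠ q s := by
    intro h
    apply q_not_dvd
    rw [← h, p_eq]
  have hbig : bigIncidence Sig = Matrix.reindex e e (bigIncidence S3) := by
    ext Q P
    obtain ⟨i, rfl⟩ := e.surjective P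
    obtain ⟨j, rfl⟩ := e.surjective Q
    simp only [bigIncidence, Matrix.of_apply, Matrix.reindex_apply, Matrix.submatrix_apply,
      Equiv.symm_apply_apply, Sig]
    refine congrArg _ ?_
    convert List.count_map_of_injective (S3 i) e e.injective j using 2
    all_goals exact lawful_beq_subsingleton _ _
  obtain ⟨-, h⟩ := hQ 3 s unimod irredPisot u v hu hv (P3 0) hinit ft Sig hSig hpq
  rw [hbig, Matrix.charpoly_reindex, big_eq] at h
  exact q_not_dvd h

end Pool.Agent.Results.MP_7b40b5_an.ReciprocalFails
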